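import Pool.Agent.Results.MP_69cf13_gt.EEightPlusTenH

/-! # Job TW-NO: the form of a class is even, and has even determinant in odd rank -/

set_option autoImplicit false

open ExteriorAlgebra Module Pool.Agent.Results.MP_69cf13_gt.EEightPlusTenH

namespace Pool.Agent.Y692.TW

section algebra
variable {n : ℕ}

theorem ι_swap (a b : Fin n → ℤ) : (ι ℤ a : Coh n) * ι ℤ b = -(ι ℤ b * ι ℤ a) :=
  eq_neg_of_add_eq_zero_left (ι_add_mul_swap _ _)

theorem two_comm_ι (a b m : Fin n → ℤ) :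
    (ι ℤ a * ι ℤ b : Coh n) * ι ℤ m = ι ℤ m * (ι ℤ a * ι ℤ b) := by
  calc (ι ℤ a * ι ℤ b : Coh n) * ι ℤ m = ι ℤ a * (ι ℤ b * ι ℤ m) := mul_assoc _ _ _
    _ = -(ι ℤ a * ι ℤ m * ι ℤ b) := by rw [ι_swap b m, mul_neg, mul_assoc]
    _ = ι ℤ m * (ι ℤ a * ι ℤ b) := by rw [ι_swap a m, neg_mul, neg_neg, mul_assoc]

theorem two_sq (a b : Fin n → ℤ) : (ι ℤ a * ι ℤ b : Coh n) * (ι ℤ a * ι ℤ b) = 0 := by
  rw [← mul_assoc, two_comm_ι a b a, ← mul_assoc, ι_sq_zero, zero_mul, zero_mul]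

theorem mem_two (y : Coh n) : y ∈ H n 2 ↔ y ∈ LinearMap.range (ι ℤ (M := Fin n → ℤ)) *
    LinearMap.range (ι ℤ (M := Fin n → ℤ)) := by
  show y ∈ (LinearMap.range (ι ℤ (M := Fin n → ℤ))) ^ 2 ↔ _
  rw [pow_two]

theorem two_comm (a b : Fin n → ℤ) (y : Coh n) (hy : y ∈ H n 2) :
    (ι ℤ a * ι ℤ b : Coh n) * y = y * (ι ℤ a * ι ℤ b) := by
  rw [mem_two] at hy
  refine Submodule.mul_induction_on hy ?_ ?_
  · rintro _ ⟨c, rfl⟩ _ ⟨d, rfl⟩
    rw [← mul_assoc, two_comm_ι a b c, mul_assoc, two_comm_ι a b d, ← mul_assoc]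
  · intro y z hy hz
    rw [mul_add, add_mul, hy, hz]

theorem deg_two_comm (x : Coh n) (hx : x ∈ H n 2) (y : Coh n) (hy : y ∈ H n 2) :
    x * y = y * x := by
  rw [mem_two] at hx
  refine Submodule.mul_induction_on hx ?_ ?_
  · rintro _ ⟨c, rfl⟩ _ ⟨d, rfl⟩
    exact two_comm c d y hy
  · intro u v hu hv
    rw [mul_add, add_mul, hu, hv]

/-- squares of elements of degree two -/
theorem deg_two_sq (x : Coh n) (hx : x ∈ H n 2) : ∃ z : Coh n, x * x = (2 : ℤ) • z := by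
  have hx' := (mem_two x).1 hx
  have key : x ∈ H n 2 ∧ ∃ z : Coh n, x * x = (2 : ℤ) • z := by
    refine Submodule.mul_induction_on hx' ?_ ?_
    · rintro _ ⟨c, rfl⟩ _ ⟨d, rfl⟩
      refine ⟨(mem_two _).2 (Submodule.mul_mem_mul ⟨c, rfl⟩ ⟨d, rfl⟩), 0, ?_⟩
      rw [two_sq, smul_zero]
    · rintro u v ⟨hu, z, hz⟩ ⟨hv, w, hw⟩
      refine ⟨?_, z + w + u * v, ?_⟩
      · have : u + v ∈ ⋀[ℤ]^2 (Fin n → ℤ) := add_mem hu hv
        exact this
      · rw [add_mul, mul_add, mul_add, hz, hw, deg_two_comm v hv u hu, smul_add, smul_add,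
          two_smul ℤ (u * v)]
        abel
  exact key.2

end algebra

/-- symmetric integer matrices with even diagonal and of odd size have even determinant -/
theorem even_det {m : ℕ} (hm : Odd m) (G : Matrix (Fin m) (Fin m) ℤ) (hs : ∀ i j, G i j = G j i)
    (hd : ∀ i, Even (G i i)) : Even G.det := by
  set K : Matrix (Fin m) (Fin m) ℤ := fun i j => if i < j then G i j else
    if j < i then -G i j else 0 with hK
  have hKT : K.transpose = -K := by
    ext i j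
    rw [Matrix.transpose_apply, Matrix.neg_apply, hK]
    simp only
    rcases lt_trichotomy i j with h | h | h
    · rw [if_neg h.not_gt, if_pos h, if_pos h, hs]
    · rw [h, if_neg (lt_irrefl _), if_neg (lt_irrefl _), neg_zero]
    · rw [if_pos h, if_neg h.not_gt, if_pos h, neg_neg, hs]
  have hdet : K.det = 0 := by
    have h1 : K.det = -K.det := by
      conv_lhs => rw [← Matrix.det_transpose, hKT, Matrix.det_neg, Fintype.card_fin, hm.neg_one_pow]
      ring
    omega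
  have hent : ∀ i j, ((G i j : ℤ) : ZMod 2) = ((K i j : ℤ) : ZMod 2) := by
    intro i j
    rw [hK]
    simp only
    rcases lt_trichotomy i j with h | h | h
    · rw [if_pos h]
    · rw [h, if_neg (lt_irrefl _), if_neg (lt_irrefl _), Int.cast_zero]
      exact (ZMod.intCast_zmod_eq_zero_iff_dvd (G j j) 2).2 (hd j).two_dvd
    · rw [if_neg h.not_gt, if_pos h, Int.cast_neg, ZMod.neg_eq_self_mod_two]
  have h2 : (G.det : ZMod 2) = (K.det : ZMod 2) := by
    have e1 := RingHom.map_det (Int.castRingHom (ZMod 2)) G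
    have e2 := RingHom.map_det (Int.castRingHom (ZMod 2)) K
    have e3 : (Int.castRingHom (ZMod 2)) G.det = (Int.castRingHom (ZMod 2)) K.det := by
      rw [e1, e2]
      congr 1
      ext i j
      exact hent i j
    exact e3
  rw [hdet, Int.cast_zero] at h2
  exact (even_iff_two_dvd).2 ((ZMod.intCast_zmod_eq_zero_iff_dvd G.det 2).1 h2)

theorem odd_choose {n : ℕ} (h : n % 4 = 2 ∨ n % 4 = 3) : Odd (n.choose 2) := by
  obtain ⟨k, hk⟩ : ∃ k, n = 4 * k + 2 ∨ n = 4 * k + 3 := ⟨n / 4, by omega⟩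
  rw [Nat.choose_two_right]
  rcases hk with rfl | rfl
  · have h1 : (4 * k + 2) * (4 * k + 2 - 1) = 2 * ((2 * k + 1) * (4 * k + 1)) := by
      rw [show 4 * k + 2 - 1 = 4 * k + 1 by omega]
      ring
    rw [h1, Nat.mul_div_cancel_left _ (by norm_num)]
    exact ⟨4 * k * k + 3 * k, by ring⟩
  · have h1 : (4 * k + 3) * (4 * k + 3 - 1) = 2 * ((4 * k + 3) * (2 * k + 1)) := by
      rw [show 4 * k + 3 - 1 = 4 * k + 2 by omega]
      ring
    rw [h1, Nat.mul_div_cancel_left _ (by norm_num)]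
    exact ⟨4 * k * k + 5 * k + 1, by ring⟩

/-- a basis of the degree two part has `n (n - 1) / 2` elements -/
theorem card_basis {n : ℕ} {κ : Type} [Fintype κ] (b : κ → Coh n) (hb : IsZBasis (H n 2) b) :
    Fintype.card κ = n.choose 2 := by
  obtain ⟨h1, h2, h3⟩ := hb
  let b' : κ → ⋀[ℤ]^2 (Fin n → ℤ) := fun i => ⟨b i, h1 i⟩
  have hcomp : (⇑(Submodule.subtype (⋀[ℤ]^2 (Fin n → ℤ))) ∘ b') = b := by
    funext i
    rfl
  have hli : LinearIndependent ℤ b' := by
    apply LinearIndependent.of_comp (Submodule.subtype (⋀[ℤ]^2 (Fin n → ℤ)))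
    rw [hcomp]
    exact h2
  have hsp : ⊤ ≤ Submodule.span ℤ (Set.range b') := by
    rintro ⟨z, hz⟩ -
    have h4 := h3 z hz
    rw [← hcomp, Set.range_comp, ← Submodule.map_span] at h4
    obtain ⟨w, hw, hwz⟩ := h4
    have : w = ⟨z, hz⟩ := Subtype.ext hwz
    rw [← this]
    exact hw
  have h5 := Module.finrank_eq_card_basis (Basis.mk hli hsp)
  rw [← h5, exteriorPower.finrank_eq]
  simp

theorem form_eq {n : ℕ} {ω : Coh n} {φ : Coh n → Coh n → ℤ} (hφ : IsFormOf (H n 2) ω (T n) φ)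
    {x y : Coh n} (hx : x ∈ H n 2) (hy : y ∈ H n 2) : φ x y = Aux.vol n (x * y * ω) := by
  rw [hφ x hx y hy, map_smul, Aux.vol_T, smul_eq_mul, mul_one]

theorem form_symm {n : ℕ} {ω : Coh n} {φ : Coh n → Coh n → ℤ} (hφ : IsFormOf (H n 2) ω (T n) φ)
    {x y : Coh n} (hx : x ∈ H n 2) (hy : y ∈ H n 2) : φ x y = φ y x := by
  rw [form_eq hφ hx hy, form_eq hφ hy hx, deg_two_comm x hx y hy]

theorem form_even {n : ℕ} {ω : Coh n} {φ : Coh n → Coh n → ℤ} (hφ : IsFormOf (H n 2) ω (T n) φ)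
    {x : Coh n} (hx : x ∈ H n 2) : Even (φ x x) := by
  obtain ⟨z, hz⟩ := deg_two_sq x hx
  rw [form_eq hφ hx hx, hz, smul_mul_assoc, map_smul, smul_eq_mul]
  exact even_two_mul _

/-- the determinant of the form of a class is even for `n = 2, 3` modulo `4` -/
theorem even_gram {n : ℕ} (h : n % 4 = 2 ∨ n % 4 = 3) {ω : Coh n} {φ : Coh n → Coh n → ℤ}
    (hφ : IsFormOf (H n 2) ω (T n) φ) {κ : Type} [Fintype κ] [DecidableEq κ] (b : κ → Coh n)
    (hb : IsZBasis (H n 2) b) : Even (Matrix.of fun i j => φ (b i) (b j)).det := by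
  have hc := card_basis b hb
  have hodd : Odd (Fintype.card κ) := hc ▸ odd_choose h
  rw [← Matrix.det_submatrix_equiv_self (Fintype.equivFin κ).symm]
  refine even_det hodd _ ?_ ?_
  · intro i j
    exact form_symm hφ (hb.1 _) (hb.1 _)
  · intro i
    exact form_even hφ (hb.1 _)

end Pool.Agent.Y692.TW
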