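import Pool.Agent.Y466.TW.Stm2
import Pool.Agent.Y692.TW.NOpre

/-! # Job TW-NO -/

set_option autoImplicit false

open Pool.Agent.Y466.TW Pool.Agent.Results.MP_69cf13_gt.EEightPlusTenH

namespace Pool.Agent.Y692.TW

theorem no : NO := by
  rintro n ω - hn - ⟨φ, hφ, m, b, hb, hdet⟩
  have h1 := even_gram hn hφ b hb
  rcases abs_eq (zero_le_one (α := ℤ)) |>.1 hdet with h | h
  · rw [h] at h1
    exact absurd h1 (by decide)
  · rw [h] at h1
    exact absurd h1 (by decide)

end Pool.Agent.Y692.TW
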